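import Pool.Agent.Helper1.All.Goals
import Pool.Agent.Helper80.Nag.TRR

/-!
PROJECT ALLSYSTEMS, goal CNF: the count of the rows of the triangle, regular case.
-/

set_option autoImplicit false

noncomputable section

namespace Pool.Agent.Helper35.All.CNF

open Pool.Agent.Helper97.Nag Pool.Agent.Helper1.All
open Pool.Agent.Helper80.Nag.TRR (row)

/-- if a row contains the points `j0, ..., j0 + s - 1` it has at least `s` points -/
theorem mem_nr (S : Finset (ℕ × ℤ)) (s : ℕ) (hs : 1 ≤ s) (X : ℤ) (j0 : ℕ)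
    (h : ∀ i : ℕ, i < s → (j0 + i, X) ∈ S) :
    X ∈ (S.image Prod.snd).filter fun X => s ≤ rl S X := by
  classical
  rw [Finset.mem_filter]
  have hsub : (Finset.range s).image (fun i : ℕ => ((j0 + i, X) : ℕ × ℤ)) ⊆
      S.filter fun q => q.2 = X := by
    intro q hq
    rw [Finset.mem_image] at hq
    obtain ⟨i, hi, rfl⟩ := hq
    rw [Finset.mem_filter]
    exact ⟨h i (Finset.mem_range.mp hi), rfl⟩
  have hcard : ((Finset.range s).image (fun i : ℕ => ((j0 + i, X) : ℕ × ℤ))).card = s := by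
    rw [Finset.card_image_of_injective]
    · exact Finset.card_range s
    · intro i i' hii
      have := congrArg Prod.fst hii
      simp only at this
      omega
  refine ⟨?_, ?_⟩
  · rw [Finset.mem_image]
    exact ⟨(j0 + 0, X), h 0 (by omega), rfl⟩
  · unfold rl
    calc s = ((Finset.range s).image (fun i : ℕ => ((j0 + i, X) : ℕ × ℤ))).card := hcard.symm
      _ ≤ (S.filter fun q => q.2 = X).card := Finset.card_le_card hsub

theorem t : S_CNF := by
  classical
  intro d rho hd h0 hti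
  have hc : 0 < rho + 9 := by linarith
  have hdr : (1 : ℝ) ≤ d := by exact_mod_cast hd
  set S : Finset (ℕ × ℤ) :=
    (Finset.range (d + 1) ×ˢ Finset.Icc (0 : ℤ) ⌈(rho + 9) * ((d : ℝ) / 3)⌉).filter
      (fun c : ℕ × ℤ => 3 * c.1 < d ∧ InT d rho c.1 c.2) with hS
  refine ⟨S, ?_, ?_⟩
  · intro q hq
    rw [hS, Finset.mem_filter] at hq
    exact hq.2
  · intro s N hs hlen
    have hmem : ∀ (j : ℕ) (X : ℤ), 3 * j < d → rho * ((d : ℝ) / 3 - (j : ℝ)) < X →
        (X : ℝ) < (rho + 9) * ((d : ℝ) / 3 - (j : ℝ)) → (j, X) ∈ S := by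
      intro j X hj h1 h2
      rw [hS, Finset.mem_filter, Finset.mem_product, Finset.mem_range, Finset.mem_Icc]
      have hjr : (3 : ℝ) * j < d := by exact_mod_cast hj
      refine ⟨⟨by simp only; omega, ?_, ?_⟩, hj, Or.inl ⟨hj, h1, h2⟩⟩
      · have : (0 : ℝ) ≤ rho * ((d : ℝ) / 3 - (j : ℝ)) := mul_nonneg h0 (by linarith)
        have h3 : (0 : ℝ) < X := lt_of_le_of_lt this h1
        have h4 : (0 : ℤ) < X := by exact_mod_cast h3
        exact h4.le
      · have h3 : (X : ℝ) ≤ (rho + 9) * ((d : ℝ) / 3) := by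
          refine h2.le.trans ?_
          apply mul_le_mul_of_nonneg_left _ hc.le
          have : (0 : ℝ) ≤ (j : ℝ) := by positivity
          linarith
        have h4 : (X : ℝ) ≤ (⌈(rho + 9) * ((d : ℝ) / 3)⌉ : ℝ) := h3.trans (Int.le_ceil _)
        exact_mod_cast h4
    set A : ℝ := (s : ℝ) * (rho * (rho + 9)) / 9 with hA
    set B : ℝ := (rho + 9) * ((d : ℝ) / 3 - s + 1) with hB
    have hlen' : (N : ℝ) ≤ B - A := by
      refine hlen.trans (le_of_eq ?_)
      rw [hA, hB]
      ring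
    have hsub : Finset.Ico ⌈A⌉ ⌈B⌉ ⊆ (S.image Prod.snd).filter fun X => s ≤ rl S X := by
      intro X hX
      rw [Finset.mem_Ico] at hX
      have hX1 : A ≤ X := Int.ceil_le.mp hX.1
      have hX2 : (X : ℝ) < B := Int.lt_ceil.mp hX.2
      obtain ⟨j0, hj0⟩ := row d rho h0 hd hti s hs X (by rw [hA] at hX1; linarith) hX2
      apply mem_nr S s hs X j0
      intro i hi
      obtain ⟨h1, h2, h3⟩ := hj0 i hi
      exact hmem (j0 + i) X h1 h2 h3
    have hcard : (N : ℤ) ≤ ⌈B⌉ - ⌈A⌉ := by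
      have h1 : A + (N : ℝ) ≤ B := by linarith
      have h2 : ⌈A + ((N : ℤ) : ℝ)⌉ ≤ ⌈B⌉ := Int.ceil_le_ceil (by push_cast; exact h1)
      rw [Int.ceil_add_intCast] at h2
      omega
    have h5 : N ≤ (Finset.Ico ⌈A⌉ ⌈B⌉).card := by
      rw [Int.card_Ico]
      omega
    exact h5.trans (Finset.card_le_card hsub)

end Pool.Agent.Helper35.All.CNF
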