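import Pool.Agent.Helper1.All.Goals
import Pool.Agent.Helper35.Nag.TRP

/-!
PROJECT ALLSYSTEMS, goal PRE: the parameter, empty case.
-/

set_option autoImplicit false

noncomputable section

namespace Pool.Agent.Helper35.All.PRE

open Pool.Agent.Helper97.Nag Pool.Agent.Helper1.All
open Pool.Agent.Helper35.Nag.TRP (generic)

theorem t : S_PRE := by
  intro d B R hR hB hd
  rcases Nat.eq_zero_or_pos d with rfl | hpos
  · refine ⟨R, hR, ?_, ?_, ?_⟩
    · nlinarith
    · rw [Nat.cast_zero, mul_zero]
      rw [Nat.cast_zero, mul_zero] at hB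
      positivity
    · intro j hj
      omega
  · have hdp : (0 : ℝ) < d := by exact_mod_cast hpos
    have hBp : 0 < B := by linarith
    have hs : Real.sqrt R * d < B := by
      have h1 : (Real.sqrt R * d) ^ 2 < B ^ 2 := by
        rw [mul_pow, Real.sq_sqrt hR]
        linarith
      exact lt_of_pow_lt_pow_left₀ 2 hBp.le h1
    have h3 : max 9 (3 * Real.sqrt R) < 3 * B / d := by
      rw [max_lt_iff]
      constructor
      · rw [lt_div_iff₀ hdp]
        linarith
      · rw [lt_div_iff₀ hdp]
        linarith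
    obtain ⟨r, hr, h4, h5⟩ := exists_irrational_btwn h3
    rw [max_lt_iff] at h4
    obtain ⟨h4, h4'⟩ := h4
    refine ⟨r - 9, by linarith, ?_, ?_, fun j hj n => generic hr d j hj n⟩
    · have h7 : (3 * Real.sqrt R) ^ 2 ≤ r ^ 2 :=
        pow_le_pow_left₀ (by positivity) h4'.le 2
      rw [mul_pow, Real.sq_sqrt hR] at h7
      have h8 : (r - 9 + 9) ^ 2 = r ^ 2 := by ring
      rw [h8]
      linarith
    · rw [lt_div_iff₀ hdp] at h5
      have h8 : (r - 9 + 9) * (d : ℝ) = r * d := by ring
      rw [h8]
      exact h5.le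

end Pool.Agent.Helper35.All.PRE
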