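import Pool.Agent.Helper35.All.CNE
import Pool.Agent.Helper35.All.CNF
import Pool.Agent.Helper35.All.PRE

/-!
PROJECT ALLSYSTEMS: guillotine coverings and packings, the numerical part.
-/

set_option autoImplicit false

noncomputable section

namespace Pool.Agent.Helper35.All.GU

open Pool.Agent.Helper97.Nag Pool.Agent.Helper1.All

/-- the lattice points of the right triangle of sides `W`, `H` belong to the diagram -/
def CovD (W H : ℝ) (lam : ℕ → ℕ) : Prop :=
  ∀ a s : ℕ, (a : ℝ) * H + s * W < W * H → a < lam s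

/-- the diagram, moved by `(1, 1)`, is contained in the closed right triangle of sides `W`, `H` -/
def PackD (W H : ℝ) (lam : ℕ → ℕ) : Prop :=
  ∀ a s : ℕ, a < lam s → ((a : ℝ) + 1) * H + ((s : ℝ) + 1) * W ≤ W * H

/-- the square -/
theorem covD_one {m : ℕ} {W H : ℝ} (hW : 0 < W) (hH : 0 < H) (h1 : W ≤ m) (h2 : H ≤ m) :
    CovD W H fun s => m - s := by
  intro a s h
  have hs : (s : ℝ) < m := by
    by_contra hcon
    rw [not_lt] at hcon
    have h3 : W * H ≤ s * W := by nlinarith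
    have h4 : 0 ≤ (a : ℝ) * H := by positivity
    linarith
  have h3 : (a : ℝ) + s < m := by
    by_contra hcon
    rw [not_lt] at hcon
    have e1 : (m - s : ℝ) * H ≤ a * H := mul_le_mul_of_nonneg_right (by linarith) hH.le
    have e2 : (m : ℝ) * H + s * (W - H) < W * H := by nlinarith
    have e3 : (m - s : ℝ) * H + s * W < W * H := by nlinarith
    have e4 : 0 ≤ (m - s : ℝ) * (m - W) := mul_nonneg (by linarith) (by linarith)
    rcases le_or_gt (s : ℝ) H with hsH | hsH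
    · have e5 : 0 ≤ (m - W : ℝ) * (H - s) := mul_nonneg (by linarith) (by linarith)
      have e6 : 0 ≤ (s : ℝ) * (m - H) := mul_nonneg (Nat.cast_nonneg s) (by linarith)
      nlinarith
    · have e5 : 0 ≤ (a : ℝ) * H := by positivity
      have e6 : H * W < s * W := mul_lt_mul_of_pos_right hsH hW
      nlinarith
  have h4 : a + s < m := by exact_mod_cast h3
  show a < m - s
  omega

/-- rows -/
theorem covD_row {W1 W2 H : ℝ} (hH : 0 < H) {lam mu : ℕ → ℕ} (h1 : CovD W1 H lam)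
    (h2 : CovD W2 H mu) : CovD (W1 + W2) H fun s => lam s + mu s := by
  intro a s h
  by_contra hcon
  rw [not_lt] at hcon
  have e1 : ¬ ((lam s : ℝ) * H + s * W1 < W1 * H) := fun h3 => lt_irrefl _ (h1 _ _ h3)
  have e2 : ¬ ((mu s : ℝ) * H + s * W2 < W2 * H) := fun h3 => lt_irrefl _ (h2 _ _ h3)
  rw [not_lt] at e1 e2
  have e3 : ((lam s : ℝ) + mu s) * H ≤ a * H := by
    apply mul_le_mul_of_nonneg_right _ hH.le
    exact_mod_cast hcon
  nlinarith

/-- columns: `cl`, `cm` are the conjugates of `lam`, `mu`, and `r` is the conjugate of their sum -/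
theorem covD_col {W H1 H2 : ℝ} (hW : 0 < W) {lam mu cl cm r : ℕ → ℕ}
    (hl : ∀ a s, s < cl a ↔ a < lam s) (hm : ∀ a s, s < cm a ↔ a < mu s)
    (hr : ∀ a s, a < r s ↔ s < cl a + cm a) (h1 : CovD W H1 lam) (h2 : CovD W H2 mu) :
    CovD W (H1 + H2) r := by
  intro a s h
  rw [hr]
  by_contra hcon
  rw [not_lt] at hcon
  have e1 : ¬ ((a : ℝ) * H1 + (cl a : ℝ) * W < W * H1) := fun h3 =>
    lt_irrefl _ ((hl _ _).2 (h1 _ _ h3))
  have e2 : ¬ ((a : ℝ) * H2 + (cm a : ℝ) * W < W * H2) := fun h3 =>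
    lt_irrefl _ ((hm _ _).2 (h2 _ _ h3))
  rw [not_lt] at e1 e2
  have e3 : ((cl a : ℝ) + cm a) * W ≤ s * W := by
    apply mul_le_mul_of_nonneg_right _ hW.le
    exact_mod_cast hcon
  nlinarith

/-- the square -/
theorem packD_one {m : ℕ} {W H : ℝ} (h1 : (m : ℝ) + 1 ≤ W) (h2 : (m : ℝ) + 1 ≤ H) :
    PackD W H fun s => m - s := by
  intro a s h
  have h' : a < m - s := h
  have h3 : a + s + 1 ≤ m := by omega
  have h4 : (a : ℝ) + s + 1 ≤ m := by exact_mod_cast h3
  have ha : (0 : ℝ) ≤ a := Nat.cast_nonneg a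
  have hs : (0 : ℝ) ≤ s := Nat.cast_nonneg s
  have e1 : 0 ≤ (W - ((a : ℝ) + 1) - ((s : ℝ) + 1)) * H := by
    have : 0 ≤ H := by linarith
    by_cases hc : (m : ℝ) + 1 ≤ W
    · apply mul_nonneg _ this
      linarith
    · exact absurd h1 hc
  have e2 : 0 ≤ ((s : ℝ) + 1) * (H - W) ∨ 0 ≤ ((a : ℝ) + 1) * (W - H) := by
    rcases le_total H W with h5 | h5
    · right
      apply mul_nonneg <;> linarith
    · left
      apply mul_nonneg <;> linarith
  rcases e2 with e2 | e2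
  · nlinarith
  · have e3 : 0 ≤ (H - ((a : ℝ) + 1) - ((s : ℝ) + 1)) * W := by
      apply mul_nonneg <;> linarith
    nlinarith

theorem packD_row_aux {W1 W2 H : ℝ} (hW1 : 0 < W1) (hW2 : 0 < W2) (hH : 0 < H) {a s : ℕ}
    (h : ((a : ℝ) + 1) * H + ((s : ℝ) + 1) * W1 ≤ W1 * H) :
    ((a : ℝ) + 1) * H + ((s : ℝ) + 1) * (W1 + W2) ≤ (W1 + W2) * H := by
  have h1 : 0 ≤ ((a : ℝ) + 1) * H := by positivity
  have h2 : ((s : ℝ) + 1) * W1 ≤ H * W1 := by linarith
  have h3 : (s : ℝ) + 1 ≤ H := le_of_mul_le_mul_right h2 hW1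
  have h4 : ((s : ℝ) + 1) * W2 ≤ H * W2 := mul_le_mul_of_nonneg_right h3 hW2.le
  linarith

/-- rows -/
theorem packD_row {W1 W2 H : ℝ} (hW1 : 0 < W1) (hW2 : 0 < W2) (hH : 0 < H) {lam mu : ℕ → ℕ}
    (h1 : PackD W1 H lam) (h2 : PackD W2 H mu) : PackD (W1 + W2) H fun s => lam s + mu s := by
  intro a s h
  have h' : a < lam s + mu s := h
  rcases lt_or_ge a (lam s) with h3 | h3
  · exact packD_row_aux hW1 hW2 hH (h1 a s h3)
  · obtain ⟨a', rfl⟩ := Nat.exists_eq_add_of_le h3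
    have h4 := h2 a' s (by omega)
    rcases Nat.eq_zero_or_pos (lam s) with h5 | h5
    · rw [h5, zero_add]
      have := packD_row_aux (W2 := W1) hW2 hW1 hH h4
      rwa [add_comm W2 W1] at this
    · have h6 := h1 (lam s - 1) s (by omega)
      rw [Nat.cast_sub h5, Nat.cast_one] at h6
      push_cast
      linarith

theorem packD_col {W H1 H2 : ℝ} (hW : 0 < W) (hH1 : 0 < H1) (hH2 : 0 < H2)
    {lam mu cl cm r : ℕ → ℕ}
    (hl : ∀ a s, s < cl a ↔ a < lam s) (hm : ∀ a s, s < cm a ↔ a < mu s)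
    (hr : ∀ a s, a < r s ↔ s < cl a + cm a) (h1 : PackD W H1 lam) (h2 : PackD W H2 mu) :
    PackD W (H1 + H2) r := by
  have e1 : PackD H1 W cl := by
    intro a s h
    have := h1 s a ((hl _ _).1 h)
    linarith
  have e2 : PackD H2 W cm := by
    intro a s h
    have := h2 s a ((hm _ _).1 h)
    linarith
  have e3 := packD_row hH1 hH2 hW e1 e2
  intro a s h
  have := e3 s a ((hr _ _).1 h)
  linarith

/-- the rows of the triangle, empty case -/
theorem trnl {d : ℕ} {rho W H : ℝ} {lam : ℕ → ℕ} (h0 : 0 ≤ rho) (hW : 0 < W) (hH : 0 < H)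
    (h1 : (rho + 9) * d ≤ 3 * W) (h2 : 9 * W ≤ (rho + 9) ^ 2 * H) (hlam : CovD W H lam)
    (S : Finset (ℕ × ℤ)) (hS : ∀ q ∈ S, InT d rho q.1 q.2) (s : ℕ) :
    nr S (s + 1) ≤ lam s := by
  refine (CNE.t d rho W (W / H) h0 hW ?_ h1 S hS s).trans ?_
  · rw [mul_div_assoc', div_le_iff₀ hH]
    exact h2
  · rw [Nat.ceil_le]
    by_contra hcon
    rw [not_le] at hcon
    apply lt_irrefl (lam s)
    apply hlam
    have h3 : ((lam s : ℝ)) * H < (W - s * (W / H)) * H := mul_lt_mul_of_pos_right hcon hH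
    have h4 : (W - s * (W / H)) * H = W * H - s * W := by
      field_simp
    linarith

/-- the rows of the triangle, regular case -/
theorem trrl {d : ℕ} {rho W H : ℝ} {lam : ℕ → ℕ} (h0 : 0 ≤ rho) (hW : 0 < W) (hH : 0 < H)
    (h1 : 3 * W ≤ (rho + 9) * ((d : ℝ) + 3)) (h2 : (rho + 9) * H ≤ 3 * ((d : ℝ) + 3))
    (hlam : PackD W H lam) {S : Finset (ℕ × ℤ)}
    (hS : ∀ s N : ℕ, 1 ≤ s → (N : ℝ) ≤ (rho + 9) * ((d : ℝ) + 3) / 3 - s * (rho + 9) ^ 2 / 9 →
      N ≤ nr S s) (s : ℕ) :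
    lam s ≤ nr S (s + 1) := by
  rcases Nat.eq_zero_or_pos (lam s) with h5 | h5
  · rw [h5]
    exact Nat.zero_le _
  · apply hS (s + 1) (lam s) (by omega)
    have h6 := hlam (lam s - 1) s (by omega)
    rw [Nat.cast_sub h5, Nat.cast_one, sub_add_cancel] at h6
    set c : ℝ := rho + 9 with hc
    have hcp : 0 < c := by linarith
    set D : ℝ := (d : ℝ) + 3 with hD
    have hDp : 0 < D := by positivity
    have h5' : (1 : ℝ) ≤ lam s := by exact_mod_cast h5
    have h7 : ((s : ℝ) + 1) * W ≤ H * W := by nlinarith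
    have h8 : (s : ℝ) + 1 ≤ H := le_of_mul_le_mul_right h7 hW
    -- lam s ≤ W (H - (s+1)) / H ≤ (c D / 3)(1 - (s+1) c/(3 D))
    have h9 : (lam s : ℝ) ≤ W * (1 - ((s : ℝ) + 1) / H) := by
      rw [mul_sub, mul_one, mul_div_assoc', le_sub_iff_add_le, ← le_sub_iff_add_le,
        le_sub_iff_add_le, ← sub_nonneg]
      have e : W - ((lam s : ℝ) + W * ((s : ℝ) + 1) / H) =
          (W * H - ((lam s : ℝ) * H + ((s : ℝ) + 1) * W)) / H := by
        field_simp
      rw [e]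
      apply div_nonneg _ hH.le
      linarith
    have h10 : 1 - ((s : ℝ) + 1) / H ≤ 1 - ((s : ℝ) + 1) * c / (3 * D) := by
      have e1 : ((s : ℝ) + 1) * c / (3 * D) ≤ ((s : ℝ) + 1) / H := by
        rw [div_le_div_iff₀ (by positivity) hH]
        have : 0 ≤ (s : ℝ) + 1 := by positivity
        nlinarith
      linarith
    have h11 : 0 ≤ 1 - ((s : ℝ) + 1) / H := by
      rw [sub_nonneg, div_le_one hH]
      exact h8
    calc (lam s : ℝ) ≤ W * (1 - ((s : ℝ) + 1) / H) := h9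
      _ ≤ (c * D / 3) * (1 - ((s : ℝ) + 1) / H) := mul_le_mul_of_nonneg_right (by linarith) h11
      _ ≤ (c * D / 3) * (1 - ((s : ℝ) + 1) * c / (3 * D)) :=
        mul_le_mul_of_nonneg_left h10 (by positivity)
      _ = c * D / 3 - ((s + 1 : ℕ) : ℝ) * c ^ 2 / 9 := by
        push_cast
        field_simp
        ring

end Pool.Agent.Helper35.All.GU
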