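import Pool.Agent.Helper1.All.Dg
import Pool.Agent.Helper35.All.GU

/-!
PROJECT ALLSYSTEMS: guillotine coverings and packings of rectangles by squares.
-/

set_option autoImplicit false

noncomputable section

namespace Pool.Agent.Helper35.All.GUI

open Pool.Agent.Helper97.Nag Pool.Agent.Helper1.All
open Pool.Agent.Helper35.All.GU

/-- guillotine coverings: the rectangle `W × H` can be cut by guillotine cuts into one piece for each
`i ∈ A`, which fits into a square of side `m i` -/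
inductive Cov {n : ℕ} (m : Fin n → ℕ) : ℝ → ℝ → Finset (Fin n) → Prop
  | piece (i : Fin n) (W H : ℝ) : 0 < W → 0 < H → W ≤ m i → H ≤ m i → Cov m W H {i}
  | hor (W₁ W₂ H : ℝ) (A B : Finset (Fin n)) : Disjoint A B → Cov m W₁ H A → Cov m W₂ H B →
      Cov m (W₁ + W₂) H (A ∪ B)
  | ver (W H₁ H₂ : ℝ) (A B : Finset (Fin n)) : Disjoint A B → Cov m W H₁ A → Cov m W H₂ B →
      Cov m W (H₁ + H₂) (A ∪ B)

/-- guillotine packings: the rectangle `W × H` can be cut by guillotine cuts into one piece for each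
`i ∈ A`, into which a square of side `m i + 1` fits -/
inductive Pack {n : ℕ} (m : Fin n → ℕ) : ℝ → ℝ → Finset (Fin n) → Prop
  | piece (i : Fin n) (W H : ℝ) : (m i : ℝ) + 1 ≤ W → (m i : ℝ) + 1 ≤ H → Pack m W H {i}
  | hor (W₁ W₂ H : ℝ) (A B : Finset (Fin n)) : Disjoint A B → Pack m W₁ H A → Pack m W₂ H B →
      Pack m (W₁ + W₂) H (A ∪ B)
  | ver (W H₁ H₂ : ℝ) (A B : Finset (Fin n)) : Disjoint A B → Pack m W H₁ A → Pack m W H₂ B →
      Pack m W (H₁ + H₂) (A ∪ B)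

/-- the diagram of a covering -/
theorem gue {n : ℕ} {m : Fin n → ℕ} {W H : ℝ} {A : Finset (Fin n)} (h : Cov m W H A) :
    0 < W ∧ 0 < H ∧ ∃ lam, Dg m A lam ∧ CovD W H lam := by
  induction h with
  | piece i W H hW hH h1 h2 => exact ⟨hW, hH, _, Dg.pt i, covD_one hW hH h1 h2⟩
  | hor W₁ W₂ H A B hAB _ _ ih1 ih2 =>
    obtain ⟨hW1, hH, lam, hl, h1⟩ := ih1
    obtain ⟨hW2, -, mu, hm, h2⟩ := ih2
    exact ⟨by linarith, hH, _, Dg.row A B lam mu hAB hl hm, covD_row hH h1 h2⟩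
  | ver W H₁ H₂ A B hAB _ _ ih1 ih2 =>
    obtain ⟨hW, hH1, lam, hl, h1⟩ := ih1
    obtain ⟨-, hH2, mu, hm, h2⟩ := ih2
    have i1 := isDg_of hl
    have i2 := isDg_of hm
    refine ⟨hW, by linarith, _, Dg.col A B lam mu hAB hl hm, ?_⟩
    exact covD_col hW (fun a s => lt_cj i1 s a) (fun a s => lt_cj i2 s a)
      (fun a s => lt_cj (isDg_add (isDg_cj i1) (isDg_cj i2)) a s) h1 h2

/-- the diagram of a packing -/
theorem gur {n : ℕ} {m : Fin n → ℕ} {W H : ℝ} {A : Finset (Fin n)} (h : Pack m W H A) :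
    0 < W ∧ 0 < H ∧ ∃ lam, Dg m A lam ∧ PackD W H lam := by
  induction h with
  | piece i W H h1 h2 =>
    have h3 : (0 : ℝ) ≤ m i := Nat.cast_nonneg _
    exact ⟨by linarith, by linarith, _, Dg.pt i, packD_one h1 h2⟩
  | hor W₁ W₂ H A B hAB _ _ ih1 ih2 =>
    obtain ⟨hW1, hH, lam, hl, h1⟩ := ih1
    obtain ⟨hW2, -, mu, hm, h2⟩ := ih2
    exact ⟨by linarith, hH, _, Dg.row A B lam mu hAB hl hm, packD_row hW1 hW2 hH h1 h2⟩
  | ver W H₁ H₂ A B hAB _ _ ih1 ih2 =>
    obtain ⟨hW, hH1, lam, hl, h1⟩ := ih1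
    obtain ⟨-, hH2, mu, hm, h2⟩ := ih2
    have i1 := isDg_of hl
    have i2 := isDg_of hm
    refine ⟨hW, by linarith, _, Dg.col A B lam mu hAB hl hm, ?_⟩
    exact packD_col hW hH1 hH2 (fun a s => lt_cj i1 s a) (fun a s => lt_cj i2 s a)
      (fun a s => lt_cj (isDg_add (isDg_cj i1) (isDg_cj i2)) a s) h1 h2

/-- the parameter, empty case -/
theorem parE {d : ℕ} {W H : ℝ} (hH : 0 < H) (h1 : 3 * (d : ℝ) < W)
    (h2 : (d : ℝ) ^ 2 < W * H) :
    ∃ rho : ℝ, 0 ≤ rho ∧ (rho + 9) * d ≤ 3 * W ∧ 9 * W ≤ (rho + 9) ^ 2 * H ∧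
      ∀ j : ℕ, 3 * j < d → ∀ n : ℤ, rho * ((d : ℝ) / 3 - j) ≠ n := by
  have hW : 0 < W := lt_of_le_of_lt (by positivity) h1
  obtain ⟨rho, h0, h3, h4, h5⟩ := PRE.t d W (W / H) (by positivity) h1 (by
    rw [mul_div_assoc', div_lt_iff₀ hH]
    nlinarith)
  refine ⟨rho, h0, h4, ?_, h5⟩
  rwa [mul_div_assoc', div_le_iff₀ hH] at h3

/-- the parameter, regular case -/
theorem parR {d : ℕ} {W H : ℝ} (hH : 0 < H) (h1 : 3 * H < (d : ℝ) + 3)
    (h2 : W * H < ((d : ℝ) + 3) ^ 2) :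
    ∃ rho : ℝ, 0 ≤ rho ∧ 3 * W ≤ (rho + 9) * ((d : ℝ) + 3) ∧
      (rho + 9) * H ≤ 3 * ((d : ℝ) + 3) ∧
      ∀ j : ℕ, 3 * j < d → ∀ n : ℤ, rho * ((d : ℝ) / 3 - j) ≠ n := by
  have hdp : (0 : ℝ) < (d : ℝ) + 3 := by positivity
  have hc : max 9 (3 * W / ((d : ℝ) + 3)) < 3 * ((d : ℝ) + 3) / H := by
    rw [max_lt_iff]
    constructor
    · rw [lt_div_iff₀ hH]
      linarith
    · rw [div_lt_div_iff₀ hdp hH]
      nlinarith
  obtain ⟨r, hr, h4, h5⟩ := exists_irrational_btwn hc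
  rw [max_lt_iff] at h4
  obtain ⟨h6, h7⟩ := h4
  refine ⟨r - 9, by linarith, ?_, ?_, fun j hj n =>
    Pool.Agent.Helper35.Nag.TRP.generic hr d j hj n⟩
  · rw [div_lt_iff₀ hdp] at h7
    have h8 : (r - 9 + 9) * ((d : ℝ) + 3) = r * ((d : ℝ) + 3) := by ring
    rw [h8]
    exact h7.le
  · rw [lt_div_iff₀ hH] at h5
    have h8 : (r - 9 + 9) * H = r * H := by ring
    rw [h8]
    exact h5.le

/-- empty side: everything except the geometry -/
theorem empG {n d : ℕ} {m : Fin n → ℕ} {W H : ℝ} {A : Finset (Fin n)} (h : Cov m W H A)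
    (h1 : 3 * (d : ℝ) < W) (h2 : (d : ℝ) ^ 2 < W * H) :
    ∃ (rho : ℝ) (lam : ℕ → ℕ), 0 ≤ rho ∧
      (∀ j : ℕ, 3 * j < d → ∀ n : ℤ, rho * ((d : ℝ) / 3 - j) ≠ n) ∧ Dg m A lam ∧
      ∀ S : Finset (ℕ × ℤ), (∀ q ∈ S, InT d rho q.1 q.2) → ∀ s, nr S (s + 1) ≤ lam s := by
  obtain ⟨hW, hH, lam, hD, hC⟩ := gue h
  obtain ⟨rho, h0, h3, h4, h5⟩ := parE hH h1 h2
  exact ⟨rho, lam, h0, h5, hD, fun S hS s => trnl h0 hW hH h3 h4 hC S hS s⟩

/-- regular side: everything except the geometry -/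
theorem regG {n d : ℕ} (hd : 1 ≤ d) {m : Fin n → ℕ} {W H : ℝ} {A : Finset (Fin n)}
    (h : Pack m W H A) (h1 : 3 * H < (d : ℝ) + 3) (h2 : W * H < ((d : ℝ) + 3) ^ 2) :
    ∃ (rho : ℝ) (lam : ℕ → ℕ), 0 ≤ rho ∧
      (∀ j : ℕ, 3 * j < d → ∀ n : ℤ, rho * ((d : ℝ) / 3 - j) ≠ n) ∧ Dg m A lam ∧
      ∃ S : Finset (ℕ × ℤ), (∀ q ∈ S, 3 * q.1 < d ∧ InT d rho q.1 q.2) ∧
        ∀ s, lam s ≤ nr S (s + 1) := by
  obtain ⟨hW, hH, lam, hD, hC⟩ := gur h
  obtain ⟨rho, h0, h3, h4, h5⟩ := parR hH h1 h2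
  obtain ⟨S, hS, hS'⟩ := CNF.t d rho hd h0 h5
  exact ⟨rho, lam, h0, h5, hD, S, hS, fun s => trrl h0 hW hH h3 h4 hC hS' s⟩

/-- a column of pieces -/
theorem covCol {n : ℕ} {m : Fin n → ℕ} {w : ℝ} (hw : 0 < w) :
    ∀ (A : Finset (Fin n)), A.Nonempty → (∀ i ∈ A, w ≤ m i) → ∀ h : ℝ, 0 < h →
      h ≤ ∑ i ∈ A, (m i : ℝ) → Cov m w h A := by
  classical
  intro A hA
  induction hA using Finset.Nonempty.cons_induction with
  | singleton i =>
    intro hm h hh hs
    rw [Finset.sum_singleton] at hs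
    exact Cov.piece i w h hw hh (hm i (Finset.mem_singleton_self i)) hs
  | cons i A hi hA ih =>
    intro hm h hh hs
    rw [Finset.sum_cons] at hs
    have hmi : (0 : ℝ) < m i := lt_of_lt_of_le hw (hm i (Finset.mem_cons_self i A))
    have hA2 : (0 : ℝ) < ∑ j ∈ A, (m j : ℝ) := by
      apply Finset.sum_pos _ hA
      intro j hj
      exact lt_of_lt_of_le hw (hm j (Finset.mem_cons_of_mem hj))
    set T : ℝ := ∑ j ∈ A, (m j : ℝ) with hT
    have e1 : h = h * (m i / (m i + T)) + h * (T / (m i + T)) := by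
      field_simp
    have hle : h / (m i + T) ≤ 1 := by
      rw [div_le_one (by positivity)]
      exact hs
    rw [Finset.cons_eq_insert, Finset.insert_eq, e1]
    apply Cov.ver w _ _ {i} A (Finset.disjoint_singleton_left.2 hi)
    · apply Cov.piece i w _ hw (by positivity) (hm i (Finset.mem_cons_self i A))
      have : h * ((m i : ℝ) / (m i + T)) = (h / (m i + T)) * m i := by ring
      rw [this]
      nlinarith
    · apply ih (fun j hj => hm j (Finset.mem_cons_of_mem hj)) _ (by positivity)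
      have : h * (T / (m i + T)) = (h / (m i + T)) * T := by ring
      rw [this]
      nlinarith

/-- a column of squares -/
theorem packCol {n : ℕ} {m : Fin n → ℕ} {w : ℝ} :
    ∀ (A : Finset (Fin n)), A.Nonempty → (∀ i ∈ A, (m i : ℝ) + 1 ≤ w) → ∀ h : ℝ,
      ∑ i ∈ A, ((m i : ℝ) + 1) ≤ h → Pack m w h A := by
  classical
  intro A hA
  induction hA using Finset.Nonempty.cons_induction with
  | singleton i =>
    intro hm h hs
    rw [Finset.sum_singleton] at hs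
    exact Pack.piece i w h (hm i (Finset.mem_singleton_self i)) hs
  | cons i A hi hA ih =>
    intro hm h hs
    rw [Finset.sum_cons] at hs
    have e1 : h = ((m i : ℝ) + 1) + (h - ((m i : ℝ) + 1)) := by ring
    rw [Finset.cons_eq_insert, Finset.insert_eq, e1]
    apply Pack.ver w _ _ {i} A (Finset.disjoint_singleton_left.2 hi)
    · exact Pack.piece i w _ (hm i (Finset.mem_cons_self i A)) le_rfl
    · apply ih (fun j hj => hm j (Finset.mem_cons_of_mem hj))
      linarith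

/-- a row of columns, for a nonempty set of groups -/
theorem covRow {n : ℕ} {m : Fin n → ℕ} {κ : Type} [DecidableEq κ] (G : κ → Finset (Fin n))
    (w : κ → ℝ) (h : ℝ) : ∀ C : Finset κ, C.Nonempty → (∀ c ∈ C, Cov m (w c) h (G c)) →
      (∀ c ∈ C, ∀ c' ∈ C, c ≠ c' → Disjoint (G c) (G c')) →
        Cov m (∑ c ∈ C, w c) h (C.biUnion G) := by
  intro C hC
  induction hC using Finset.Nonempty.cons_induction with
  | singleton c =>
    intro h1 _
    rw [Finset.sum_singleton, Finset.singleton_biUnion]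
    exact h1 c (Finset.mem_singleton_self c)
  | cons c C hc hC ih =>
    intro h1 h2
    rw [Finset.sum_cons, Finset.cons_eq_insert, Finset.biUnion_insert]
    apply Cov.hor
    · rw [Finset.disjoint_biUnion_right]
      intro c' hc'
      apply h2 c (Finset.mem_cons_self c C) c' (Finset.mem_cons_of_mem hc')
      rintro rfl
      exact hc hc'
    · exact h1 c (Finset.mem_cons_self c C)
    · exact ih (fun c' hc' => h1 c' (Finset.mem_cons_of_mem hc'))
        (fun c' hc' c'' hc'' => h2 c' (Finset.mem_cons_of_mem hc') c'' (Finset.mem_cons_of_mem hc''))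

/-- a row of columns of squares -/
theorem packRow {n : ℕ} {m : Fin n → ℕ} {κ : Type} [DecidableEq κ] (G : κ → Finset (Fin n))
    (w : κ → ℝ) (h : ℝ) : ∀ C : Finset κ, C.Nonempty → (∀ c ∈ C, Pack m (w c) h (G c)) →
      (∀ c ∈ C, ∀ c' ∈ C, c ≠ c' → Disjoint (G c) (G c')) →
        Pack m (∑ c ∈ C, w c) h (C.biUnion G) := by
  intro C hC
  induction hC using Finset.Nonempty.cons_induction with
  | singleton c =>
    intro h1 _
    rw [Finset.sum_singleton, Finset.singleton_biUnion]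
    exact h1 c (Finset.mem_singleton_self c)
  | cons c C hc hC ih =>
    intro h1 h2
    rw [Finset.sum_cons, Finset.cons_eq_insert, Finset.biUnion_insert]
    apply Pack.hor
    · rw [Finset.disjoint_biUnion_right]
      intro c' hc'
      apply h2 c (Finset.mem_cons_self c C) c' (Finset.mem_cons_of_mem hc')
      rintro rfl
      exact hc hc'
    · exact h1 c (Finset.mem_cons_self c C)
    · exact ih (fun c' hc' => h1 c' (Finset.mem_cons_of_mem hc'))
        (fun c' hc' c'' hc'' => h2 c' (Finset.mem_cons_of_mem hc') c'' (Finset.mem_cons_of_mem hc''))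

end Pool.Agent.Helper35.All.GUI
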