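import Pool.Agent.Helper1.All.Goals
import Pool.Agent.Helper35.Nag.TRN

/-!
PROJECT ALLSYSTEMS, goal CNE: the count of the rows of the triangle, empty case.
-/

set_option autoImplicit false

noncomputable section

namespace Pool.Agent.Helper35.All.CNE

open Pool.Agent.Helper97.Nag Pool.Agent.Helper1.All
open Pool.Agent.Helper35.Nag.TRN (card_le spread)

theorem t : S_CNE := by
  intro d rho B R h0 hBpos h9 hd S hS i
  have hd' : (rho + 9) * ((d : ℝ) / 3) ≤ B := by linarith
  obtain rfl | hi := Nat.eq_zero_or_pos i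
  · -- one point in the row
    have e0 : B - ((0 : ℕ) : ℝ) * R = B := by
      rw [Nat.cast_zero, zero_mul, sub_zero]
    rw [e0]
    have hN : 0 < ⌈B⌉₊ := Nat.ceil_pos.2 hBpos
    have hle : B ≤ (⌈B⌉₊ : ℝ) := Nat.le_ceil B
    have hsub : ((S.image Prod.snd).filter fun X => 0 + 1 ≤ rl S X) ⊆
        Finset.Ico (0 : ℤ) (⌈B⌉₊ : ℤ) := by
      intro X hX
      rw [Finset.mem_filter, Finset.mem_image] at hX
      obtain ⟨⟨q, hq, rfl⟩, -⟩ := hX
      rw [Finset.mem_Ico]
      rcases hS q hq with ⟨hjd, h1, h3⟩ | ⟨hjd, h1⟩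
      · have hjd' : (3 : ℝ) * q.1 < d := by exact_mod_cast hjd
        have hv : 0 < (d : ℝ) / 3 - q.1 := by linarith
        constructor
        · have h4 : (0 : ℝ) < (q.2 : ℝ) := lt_of_le_of_lt (mul_nonneg h0 hv.le) h1
          have h5 : (0 : ℤ) < q.2 := by exact_mod_cast h4
          exact h5.le
        · have h4 : (q.2 : ℝ) < (⌈B⌉₊ : ℝ) := by
            have h5 : (rho + 9) * ((d : ℝ) / 3 - q.1) ≤ (rho + 9) * ((d : ℝ) / 3) := by
              apply mul_le_mul_of_nonneg_left _ (by linarith)
              have : (0 : ℝ) ≤ (q.1 : ℝ) := Nat.cast_nonneg _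
              linarith
            linarith
          exact_mod_cast h4
      · rw [h1]
        constructor
        · exact le_refl _
        · exact_mod_cast hN
    calc nr S (0 + 1) ≤ (Finset.Ico (0 : ℤ) (⌈B⌉₊ : ℤ)).card := Finset.card_le_card hsub
      _ = ⌈B⌉₊ := by
        rw [Int.card_Ico, sub_zero, Int.toNat_natCast]
  · -- at least two points
    have hi' : (1 : ℝ) ≤ i := by exact_mod_cast hi
    apply card_le (a := i * rho * (rho + 9) / 9) (c := (rho + 9) * ((d : ℝ) / 3 - i))
    · intro X hX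
      rw [Finset.mem_filter, Finset.mem_image] at hX
      obtain ⟨-, hcard⟩ := hX
      unfold rl at hcard
      have hinj : Set.InjOn (fun q : ℕ × ℤ => (q.1 : ℤ)) (S.filter fun q => q.2 = X) := by
        intro p hp q hq hpq
        rw [Finset.mem_coe, Finset.mem_filter] at hp hq
        simp only [Nat.cast_inj] at hpq
        exact Prod.ext hpq (hp.2.trans hq.2.symm)
      have hcard' : i + 1 ≤ ((S.filter fun q => q.2 = X).image
          (fun q : ℕ × ℤ => (q.1 : ℤ))).card := by
        rw [Finset.card_image_of_injOn hinj]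
        exact hcard
      obtain ⟨x, hx, y, hy, hxy⟩ := spread hcard'
      rw [Finset.mem_image] at hx hy
      obtain ⟨p, hp, rfl⟩ := hx
      obtain ⟨q, hq, rfl⟩ := hy
      rw [Finset.mem_filter] at hp hq
      obtain ⟨hpS, hpX⟩ := hp
      obtain ⟨hqS, hqX⟩ := hq
      have hIp := hS p hpS
      have hIq := hS q hqS
      rw [hpX] at hIp
      rw [hqX] at hIq
      have hxy' : (p.1 : ℝ) + i ≤ q.1 := by exact_mod_cast hxy
      have hjd : (3 : ℝ) * q.1 ≤ d := by
        rcases hIq with ⟨h3, -, -⟩ | ⟨h3, -⟩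
        · exact_mod_cast h3.le
        · exact_mod_cast h3.le
      have hp1 : rho * ((d : ℝ) / 3 - p.1) < X := by
        rcases hIp with ⟨h3, h4, -⟩ | ⟨h3, -⟩
        · exact h4
        · exfalso
          have h4 : (3 : ℝ) * p.1 = d := by exact_mod_cast h3
          linarith
      have hX : 0 < (X : ℝ) := by
        refine lt_of_le_of_lt (mul_nonneg h0 ?_) hp1
        linarith
      have hq1 : (X : ℝ) < (rho + 9) * ((d : ℝ) / 3 - q.1) := by
        rcases hIq with ⟨-, -, h4⟩ | ⟨-, h4⟩
        · exact h4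
        · exfalso
          rw [h4] at hX
          simp at hX
      constructor
      · -- lower bound
        have e1 : (rho + 9) * (rho * ((d : ℝ) / 3 - p.1)) < (rho + 9) * X :=
          mul_lt_mul_of_pos_left hp1 (by linarith)
        have e2 : rho * (X : ℝ) ≤ rho * ((rho + 9) * ((d : ℝ) / 3 - q.1)) :=
          mul_le_mul_of_nonneg_left hq1.le h0
        have e3 : rho * (rho + 9) * ((p.1 : ℝ) + i) ≤ rho * (rho + 9) * q.1 :=
          mul_le_mul_of_nonneg_left hxy' (mul_nonneg h0 (by linarith))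
        rw [div_lt_iff₀ (by norm_num)]
        nlinarith
      · refine lt_of_lt_of_le hq1 ?_
        apply mul_le_mul_of_nonneg_left _ (by linarith)
        have : (0 : ℝ) ≤ (p.1 : ℝ) := Nat.cast_nonneg _
        linarith
    · refine le_trans ?_ (Nat.le_ceil _)
      have hi0 : (0 : ℝ) ≤ i := Nat.cast_nonneg i
      have e1 : (i : ℝ) * (9 * R) ≤ i * (rho + 9) ^ 2 := mul_le_mul_of_nonneg_left h9 hi0
      have e2 : (rho + 9) * ((d : ℝ) / 3 - i) - i * rho * (rho + 9) / 9 =
          (rho + 9) * ((d : ℝ) / 3) - i * (rho + 9) ^ 2 / 9 := by ring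
      rw [e2]
      linarith

end Pool.Agent.Helper35.All.CNE
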