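import Pool.Agent.Helper1.All.Goals
import Pool.Agent.Helper35.Nag.TRP

/-!
PROJECT ALLSYSTEMS, goal PRF: the parameter, regular case.
-/

set_option autoImplicit false

noncomputable section

namespace Pool.Agent.Helper35.All.PRF

open Pool.Agent.Helper97.Nag Pool.Agent.Helper1.All
open Pool.Agent.Helper35.Nag.TRP (generic)

theorem t : S_PRF := by
  intro d H B hd hH hHB
  have hdp : (0 : ℝ) < (d : ℝ) + 3 := by positivity
  obtain ⟨c, hc, hcl⟩ : ∃ c : ℝ, max 9 (3 * (B : ℝ) / ((d : ℝ) + 3)) < c ∧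
      c * (H : ℝ) ≤ 3 * ((d : ℝ) + 3) := by
    rcases Nat.eq_zero_or_pos H with rfl | hpos
    · exact ⟨max 9 (3 * (B : ℝ) / ((d : ℝ) + 3)) + 1, by linarith, by
        rw [Nat.cast_zero, mul_zero]; positivity⟩
    · have hp : (0 : ℝ) < (H : ℝ) := by exact_mod_cast hpos
      refine ⟨3 * ((d : ℝ) + 3) / H, ?_, ?_⟩
      · rw [max_lt_iff]
        constructor
        · rw [lt_div_iff₀ hp]
          have h1 : (3 : ℝ) * H < d + 3 := by exact_mod_cast hH
          linarith
        · rw [div_lt_div_iff₀ hdp hp]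
          have h1 : (H : ℝ) * B < ((d : ℝ) + 3) ^ 2 := by exact_mod_cast hHB
          nlinarith
      · rw [div_mul_cancel₀ _ hp.ne']
  obtain ⟨r, hr, h4, h5⟩ := exists_irrational_btwn hc
  rw [max_lt_iff] at h4
  obtain ⟨h6, h7⟩ := h4
  refine ⟨r - 9, by linarith, ?_, ?_, fun j hj n => generic hr d j hj n⟩
  · have h8 : (r - 9 + 9) * (H : ℝ) = r * H := by ring
    rw [h8]
    refine le_trans ?_ hcl
    apply mul_le_mul_of_nonneg_right h5.le
    positivity
  · rw [div_lt_iff₀ hdp] at h7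
    have h8 : (r - 9 + 9) * ((d : ℝ) + 3) = r * ((d : ℝ) + 3) := by ring
    rw [h8]
    exact h7.le

end Pool.Agent.Helper35.All.PRF
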